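import Pool.Agent.H606.GU.Stm

/-! TASK AVE of project GU (helper606). -/

set_option autoImplicit false

open MeasureTheory Filter Topology Finset
open Pool.Agent.H606.GU

namespace Pool.Agent.H199.GU.AVE

theorem cnt_eq {α β : Type} (e : α ≃ β) {N : ℕ} (x : Fin N → ℝ) (A : Set (α → ℝ)) (t : ℝ) :
    cnt x {y : β → ℝ | (fun i => y (e i)) ∈ A} t = cnt x A t := by
  unfold cnt
  have h : {s : α → Fin N | Function.Injective s ∧ (fun i => x (s i) - t) ∈ A} =
      (fun s : β → Fin N => fun i => s (e i)) '' {s : β → Fin N | Function.Injective s ∧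
        (fun i => x (s i) - t) ∈ {y : β → ℝ | (fun i => y (e i)) ∈ A}} := by
    ext s
    simp only [Set.mem_setOf_eq, Set.mem_image]
    constructor
    · rintro ⟨h1, h2⟩
      refine ⟨fun b => s (e.symm b), ⟨h1.comp e.symm.injective, ?_⟩, ?_⟩
      · simpa using h2
      · funext i
        simp
    · rintro ⟨s', ⟨h1, h2⟩, rfl⟩
      exact ⟨h1.comp e.injective, h2⟩
  rw [h, Set.ncard_image_of_injective]
  intro s s' hs
  funext b
  have := congrFun hs (e.symm b)
  simpa using this

theorem av_eq {α β : Type} (e : α ≃ β) (N : ℕ) (x : Fin N → ℝ) (R : ℝ) (A : Set (α → ℝ)) :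
    Av x R {y : β → ℝ | (fun i => y (e i)) ∈ A} = Av x R A := by
  unfold Av
  simp only [cnt_eq e x A]

theorem phi_apply {α β : Type} [Fintype α] [Fintype β] (e : α ≃ β) (y : α → ℝ) :
    (MeasurableEquiv.piCongrLeft (fun _ : β => ℝ) e) y = fun b => y (e.symm b) := by
  funext b
  obtain ⟨a, rfl⟩ := e.surjective b
  rw [MeasurableEquiv.coe_piCongrLeft, Equiv.piCongrLeft_apply_apply, e.symm_apply_apply]

theorem t_AVE (hRHO : S_RHO) : S_AVE := by
  intro α β _ _ _ _ e
  refine ⟨fun N x R A => av_eq e N x R A, ?_⟩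
  intro C c hUp K hK ε hε
  have hc : IsCompact {y : α → ℝ | (fun b => y (e.symm b)) ∈ K} := by
    have h1 : {y : α → ℝ | (fun b => y (e.symm b)) ∈ K} = (fun z : β → ℝ => fun a => z (e a)) '' K := by
      ext y
      simp only [Set.mem_setOf_eq, Set.mem_image]
      constructor
      · intro h
        refine ⟨_, h, ?_⟩
        funext a
        simp
      · rintro ⟨z, hz, rfl⟩
        simpa using hz
    rw [h1]
    exact hK.image (continuous_pi fun a => continuous_apply (e a))
  have hI : ∫ y in {y : α → ℝ | (fun b => y (e.symm b)) ∈ K}, rho y = ∫ y in K, rho y := by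
    have h1 := (volume_measurePreserving_piCongrLeft (fun _ : β => ℝ) e).setIntegral_preimage_emb
      (MeasurableEquiv.measurableEmbedding _) (fun y : β → ℝ => rho y) K
    rw [← h1]
    have h2 : (MeasurableEquiv.piCongrLeft (fun _ : β => ℝ) e) ⁻¹' K =
        {y : α → ℝ | (fun b => y (e.symm b)) ∈ K} := by
      ext y
      rw [Set.mem_preimage, phi_apply e y]
      rfl
    rw [h2]
    refine integral_congr_ae (ae_of_all _ fun y => ?_)
    have h3 := hRHO.2.1 α β e.symm y
    change rho y = rho ((MeasurableEquiv.piCongrLeft (fun _ : β => ℝ) e) y)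
    rw [phi_apply e y]
    exact h3.symm
  filter_upwards [hUp _ hc ε hε] with T hT
  rw [hI, av_eq e.symm] at hT
  exact hT

end Pool.Agent.H199.GU.AVE
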