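import Pool.Agent.H606.GU.Stm

/-! TASK RHO of project GU (helper606). -/

set_option autoImplicit false

open MeasureTheory Filter Topology Finset
open Pool.Agent.H606.GU

namespace Pool.Agent.H199.GU.RHO

theorem sk_cont : Continuous SK := by
  have h : SK = fun x => Real.sinc (Real.pi * x) := rfl
  rw [h]
  exact Real.continuous_sinc.comp (continuous_const.mul continuous_id)

theorem sk_zero : SK 0 = 1 := by
  unfold SK
  rw [mul_zero, Real.sinc_zero]

theorem sk_neg (x : ℝ) : SK (-x) = SK x := by
  unfold SK
  rw [mul_neg, Real.sinc_neg]

theorem t_RHO : S_RHO := by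
  refine ⟨?_, ?_, ?_, ?_, ?_⟩
  · intro α _ _
    have h : Continuous (fun y : α → ℝ => KM y) := by
      refine continuous_matrix fun i j => ?_
      exact sk_cont.comp ((continuous_apply i).sub (continuous_apply j))
    exact h.matrix_det
  · intro α β _ _ _ _ e y
    have h : KM (fun i => y (e i)) = (KM y).submatrix e e := rfl
    unfold rho
    rw [h, Matrix.det_submatrix_equiv_self]
  · intro α _ _ y t
    have h : KM (fun i => y i - t) = KM y := by
      ext i j
      simp only [KM, Matrix.of_apply]
      congr 1
      ring
    unfold rho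
    rw [h]
  · intro α _ _ _ y
    unfold rho
    rw [Matrix.det_unique]
    simp only [KM, Matrix.of_apply, sub_self]
    exact sk_zero
  · intro y
    unfold rho
    rw [Matrix.det_fin_two]
    simp only [KM, Matrix.of_apply, sub_self, sk_zero]
    have h : SK (y 1 - y 0) = SK (y 0 - y 1) := by
      rw [← neg_sub, sk_neg]
    rw [h]
    ring

end Pool.Agent.H199.GU.RHO
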